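import Pool.Agent.W516.KCM.Defs

/-!
# Project KCM: the algebraic hull of a set of scalars
-/

namespace Pool.Agent.W392.KCM

open Module TensorProduct Pool.Agent.W516.K3 Pool.Agent.W516.KU Pool.Agent.W516.KCM

section

variable {k E : Type} [Field k] [CharZero k] [Field E] [Algebra k E] [FiniteDimensional k E]
  [Algebra k ℂ]

/-- every `k`-linear form is a combination of the embeddings -/
theorem coord_eq (g : E →ₗ[k] k) : ∃ d : (E →ₐ[k] ℂ) → ℂ, ∀ x : E,
    algebraMap k ℂ (g x) = ∑ τ : E →ₐ[k] ℂ, d τ * τ x := by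
  have hnd := traceForm_nondegenerate k E
  obtain ⟨y, hy⟩ : ∃ y : E, ∀ x, g x = Algebra.trace k E (y * x) := by
    refine ⟨(LinearMap.BilinForm.toDual (Algebra.traceForm k E) hnd).symm g, fun x => ?_⟩
    have := LinearMap.BilinForm.apply_toDual_symm_apply (B := Algebra.traceForm k E) (hB := hnd) g x
    rw [Algebra.traceForm_apply] at this
    exact this.symm
  refine ⟨fun τ => τ y, fun x => ?_⟩
  rw [hy, trace_eq_sum_embeddings (E := ℂ)]
  refine Finset.sum_congr rfl fun τ _ => ?_
  rw [map_mul]

variable {κ : Type} [Fintype κ] [DecidableEq κ]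

/-- every multilinear form is a combination of products of embeddings -/
theorem expand (M : MultilinearMap k (fun _ : κ => E) k) : ∃ c : (κ → (E →ₐ[k] ℂ)) → ℂ,
    ∀ a : κ → E, algebraMap k ℂ (M a) = ∑ f : κ → (E →ₐ[k] ℂ), c f * ∏ i, f i (a i) := by
  let b := Module.finBasis k E
  have hd : ∀ j, ∃ d : (E →ₐ[k] ℂ) → ℂ, ∀ x : E,
      algebraMap k ℂ (b.coord j x) = ∑ τ : E →ₐ[k] ℂ, d τ * τ x := fun j => coord_eq (b.coord j)
  choose d hd using hd
  refine ⟨fun f => ∑ r : κ → Fin (finrank k E), (∏ i, d (r i) (f i)) * algebraMap k ℂ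
    (M fun i => b (r i)), fun a => ?_⟩
  have h1 : M a = ∑ r : κ → Fin (finrank k E), (∏ i, b.coord (r i) (a i)) • M fun i => b (r i) := by
    have h2 : a = fun i => ∑ j, b.coord j (a i) • b j := by
      funext i
      exact (b.sum_repr (a i)).symm
    conv_lhs => rw [h2]
    rw [MultilinearMap.map_sum]
    refine Finset.sum_congr rfl fun r _ => ?_
    exact MultilinearMap.map_smul_univ M (fun i => b.coord (r i) (a i)) (fun i => b (r i))
  rw [h1, map_sum]
  simp only [Finset.sum_mul]
  rw [Finset.sum_comm]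
  refine Finset.sum_congr rfl fun r _ => ?_
  rw [smul_eq_mul, map_mul, map_prod]
  simp only [hd]
  rw [Finset.prod_univ_sum, Fintype.piFinset_univ, Finset.sum_mul]
  refine Finset.sum_congr rfl fun f _ => ?_
  rw [Finset.prod_mul_distrib]
  ring

/-- the product of embeddings as a monoid morphism -/
noncomputable def chr (f : κ → (E →ₐ[k] ℂ)) : (κ → E) →* ℂ where
  toFun a := ∏ i, f i (a i)
  map_one' := by simp
  map_mul' a b := by simp [Finset.prod_mul_distrib]

theorem chr_inj : Function.Injective (chr : (κ → (E →ₐ[k] ℂ)) → ((κ → E) →* ℂ)) := by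
  intro f g h
  funext i
  refine AlgHom.ext fun x => ?_
  have h1 := DFunLike.congr_fun h (Function.update (1 : κ → E) i x)
  have h2 : ∀ f : κ → (E →ₐ[k] ℂ), chr f (Function.update (1 : κ → E) i x) = f i x := by
    intro f
    show ∏ j, f j (Function.update (1 : κ → E) i x j) = f i x
    rw [Finset.prod_eq_single i]
    · rw [Function.update_self]
    · intro j _ hj
      rw [Function.update_of_ne hj]
      exact map_one _
    · intro hi
      exact absurd (Finset.mem_univ _) hi
  rwa [h2, h2] at h1

theorem indep (c : (κ → (E →ₐ[k] ℂ)) → ℂ)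
    (h : ∀ a : κ → E, ∑ f : κ → (E →ₐ[k] ℂ), c f * ∏ i, f i (a i) = 0) : ∀ f, c f = 0 := by
  have h1 := (linearIndependent_monoidHom (κ → E) ℂ).comp
    (chr : (κ → (E →ₐ[k] ℂ)) → ((κ → E) →* ℂ)) chr_inj
  rw [Fintype.linearIndependent_iff] at h1
  apply h1 c
  funext a
  rw [Finset.sum_apply]
  exact h a

theorem prod_upd (f : κ → (E →ₐ[k] ℂ)) (a : κ → E) (j : κ) (z : E) :
    ∏ i, f i (Function.update a j (z * a j) i) = f j z * ∏ i, f i (a i) := by
  rw [← Finset.mul_prod_erase _ _ (Finset.mem_univ j),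
    ← Finset.mul_prod_erase Finset.univ (fun i => f i (a i)) (Finset.mem_univ j),
    Function.update_self, map_mul, mul_assoc]
  congr 2
  refine Finset.prod_congr rfl fun i hi => ?_
  rw [Function.update_of_ne (Finset.ne_of_mem_erase hi)]

end

theorem T_HULL : S_HULL := by
  intro k E T _ _ _ _ _ _ _ _ _ _ _ κ _ _ φ Z z₀ hZ hs v
  classical
  let M : MultilinearMap k (fun _ : κ => E) k :=
    φ.compLinearMap fun i => (LinearMap.toSpanSingleton E T (v i)).restrictScalars k
  have hM : ∀ a : κ → E, M a = φ fun i => a i • v i := fun a => rfl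
  obtain ⟨c, hc⟩ := expand M
  have hsum : ∀ (z : E) (a : κ → E),
      algebraMap k ℂ (∑ j, φ (Function.update (fun i => a i • v i) j (z • (a j • v j)))) =
        ∑ f : κ → (E →ₐ[k] ℂ), (c f * ∑ j, f j z) * ∏ i, f i (a i) := by
    intro z a
    have h1 : ∀ j, φ (Function.update (fun i => a i • v i) j (z • (a j • v j))) =
        M (Function.update a j (z * a j)) := by
      intro j
      rw [hM]
      congr 1
      funext i
      by_cases hi : i = j
      · subst hi
        rw [Function.update_self, Function.update_self, mul_smul]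
      · rw [Function.update_of_ne hi, Function.update_of_ne hi]
    simp only [h1]
    rw [map_sum]
    simp only [hc, prod_upd]
    rw [Finset.sum_comm]
    refine Finset.sum_congr rfl fun f _ => ?_
    rw [Finset.mul_sum, Finset.sum_mul]
    refine Finset.sum_congr rfl fun j _ => ?_
    ring
  have hzero : ∀ z ∈ Z, ∀ f, c f * ∑ j, f j z = 0 := by
    intro z hz
    refine indep (fun f => c f * ∑ j, f j z) fun a => ?_
    rw [← hsum z a]
    have := hZ z hz (fun i => a i • v i)
    have h2 : ∑ j, φ (Function.update (fun i => a i • v i) j (z • (a j • v j))) = 0 := this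
    rw [h2, map_zero]
  have hs' : ∀ (f : κ → (E →ₐ[k] ℂ)) (z : E),
      ∑ τ : E →ₐ[k] ℂ, ((∑ j, if f j = τ then (1 : ℤ) else 0 : ℤ) : ℂ) * τ z = ∑ j, f j z := by
    intro f z
    push_cast
    simp only [Finset.sum_mul]
    rw [Finset.sum_comm]
    refine Finset.sum_congr rfl fun j _ => ?_
    simp
  have hzero0 : ∀ f, c f * ∑ j, f j z₀ = 0 := by
    intro f
    by_cases hf : c f = 0
    · rw [hf, zero_mul]
    · have h1 := hs (fun τ => ∑ j, if f j = τ then (1 : ℤ) else 0) (by
        intro z hz
        rw [hs']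
        exact (mul_eq_zero.1 (hzero z hz f)).resolve_left hf)
      rw [hs'] at h1
      rw [h1, mul_zero]
  have h1 := hsum z₀ 1
  simp only [hzero0, zero_mul, Finset.sum_const_zero, Pi.one_apply, one_smul] at h1
  rw [map_eq_zero] at h1
  exact h1

end Pool.Agent.W392.KCM
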